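import Pool.Agent.W2helper78.KW.Stm

/-!
# KW-4b: the entropy count
-/

set_option autoImplicit false

open MeasureTheory Real

namespace Pool.Agent.W2helper78.KW

noncomputable section

/-- the coarse cell of a point -/
def Qc (x : ℂ) : ℤ × ℤ := (⌊100 * x.re⌋, ⌊100 * x.im⌋)

lemma abs_sub_lt_of_floor {a b c : ℝ} (hc : 0 < c) (h : ⌊a * c⌋ = ⌊b * c⌋) : |a - b| < 1 / c := by
  have h1 := Int.abs_sub_lt_one_of_floor_eq_floor h
  rw [← sub_mul, abs_mul, abs_of_pos hc] at h1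
  rw [lt_div_iff₀ hc]
  exact h1

lemma norm_le_of_abs {z : ℂ} {t : ℝ} (ht : 0 ≤ t) (h1 : |z.re| ≤ t) (h2 : |z.im| ≤ t) :
    ‖z‖ ≤ √2 * t := by
  rw [Complex.norm_def]
  have h3 : Complex.normSq z ≤ 2 * t ^ 2 := by
    rw [Complex.normSq_apply]
    have h4 := sq_le_sq' (abs_le.1 h1).1 (abs_le.1 h1).2
    have h5 := sq_le_sq' (abs_le.1 h2).1 (abs_le.1 h2).2
    nlinarith
  calc √(Complex.normSq z) ≤ √(2 * t ^ 2) := Real.sqrt_le_sqrt h3
    _ = √2 * t := by rw [Real.sqrt_mul (by norm_num), Real.sqrt_sq ht]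

lemma sqrt2_lt : √2 < 3 / 2 := by
  rw [Real.sqrt_lt' (by norm_num)]; norm_num

lemma Qc_close {x y : ℂ} (h : Qc x = Qc y) : ‖x - y‖ ≤ 1 / 50 := by
  have h1 : ⌊x.re * 100⌋ = ⌊y.re * 100⌋ := by
    have := congrArg Prod.fst h
    simp only [Qc] at this
    rwa [mul_comm x.re, mul_comm y.re]
  have h2 : ⌊x.im * 100⌋ = ⌊y.im * 100⌋ := by
    have := congrArg Prod.snd h
    simp only [Qc] at this
    rwa [mul_comm x.im, mul_comm y.im]
  have h3 := abs_sub_lt_of_floor (by norm_num) h1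
  have h4 := abs_sub_lt_of_floor (by norm_num) h2
  have h5 := norm_le_of_abs (z := x - y) (t := 1 / 100) (by norm_num)
    (by rw [Complex.sub_re]; linarith) (by rw [Complex.sub_im]; linarith)
  have := sqrt2_lt
  linarith

lemma Qc_inj {P : Finset ℂ} (hP : Sep P) {x y : ℂ} (hx : x ∈ P) (hy : y ∈ P) (h : Qc x = Qc y) :
    x = y := by
  by_contra hne
  have h1 := hP x hx y hy hne
  have h2 := Qc_close h
  linarith

lemma dsc_close {x y : ℂ} {h : ℝ} (hh : 0 < h) (he : dsc h x = dsc h y) : ‖x - y‖ ≤ 2 * h := by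
  have h1 : ⌊x.re * h⁻¹⌋ = ⌊y.re * h⁻¹⌋ := by
    have := congrArg Prod.fst he
    simpa only [dsc, div_eq_mul_inv] using this
  have h2 : ⌊x.im * h⁻¹⌋ = ⌊y.im * h⁻¹⌋ := by
    have := congrArg Prod.snd he
    simpa only [dsc, div_eq_mul_inv] using this
  have h3 := abs_sub_lt_of_floor (by positivity) h1
  have h4 := abs_sub_lt_of_floor (by positivity) h2
  rw [one_div, inv_inv] at h3 h4
  have h5 := norm_le_of_abs (z := x - y) (t := h) hh.le
    (by rw [Complex.sub_re]; linarith) (by rw [Complex.sub_im]; linarith)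
  have := sqrt2_lt
  nlinarith

lemma floor_eq_of_mod {a b h : ℝ} (hh : 0 < h) (hab : |a - b| ≤ 17 * h)
    (hm : ⌊a / h⌋ % 40 = ⌊b / h⌋ % 40) : ⌊a / h⌋ = ⌊b / h⌋ := by
  have h1 := abs_le.1 hab
  have ha := Int.floor_le (a / h)
  have ha' := Int.lt_floor_add_one (a / h)
  have hb := Int.floor_le (b / h)
  have hb' := Int.lt_floor_add_one (b / h)
  have e1 : a / h - b / h ≤ 17 := by
    rw [← sub_div, div_le_iff₀ hh]; exact h1.2
  have e2 : -17 ≤ a / h - b / h := by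
    rw [← sub_div, le_div_iff₀ hh]; linarith [h1.1]
  have c1 : ((⌊a / h⌋ - ⌊b / h⌋ : ℤ) : ℝ) < 19 := by push_cast; linarith
  have c2 : (-19 : ℝ) < ((⌊a / h⌋ - ⌊b / h⌋ : ℤ) : ℝ) := by push_cast; linarith
  have c3 : ⌊a / h⌋ - ⌊b / h⌋ < 19 := by exact_mod_cast c1
  have c4 : -19 < ⌊a / h⌋ - ⌊b / h⌋ := by exact_mod_cast c2
  omega

/-- the symbols -/
abbrev Sym := Option ((ℤ × ℤ) ⊕ ((ℤ × ℤ) × (ℤ × ℤ) × ℕ × ℕ × (ℤ × ℤ)))

/-- the symbol of a point with lower neighbours `yz` -/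
def symOf (h : ℝ) (P : Finset ℂ) (x : ℂ) (yz : ℂ × ℂ) : Sym :=
  open Classical in
  if 1 / 10 < D P x then
    some (Sum.inl ((dsc h x).1 - ⌊((Qc x).1 : ℝ) / 100 / h⌋, (dsc h x).2 - ⌊((Qc x).2 : ℝ) / 100 / h⌋))
  else some (Sum.inr (Qc yz.1 - Qc x, Qc yz.2 - Qc x, ⌊(‖yz.1 - x‖ - 1) / h⌋₊,
    ⌊(‖yz.2 - x‖ - 1) / h⌋₊, ((dsc h x).1 % 40, (dsc h x).2 % 40)))

/-- specification of the lower neighbours -/
def Spec (P : Finset ℂ) (x : ℂ) (yz : ℂ × ℂ) : Prop :=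
  yz.1 ∈ P ∧ yz.2 ∈ P ∧ yz.1 ≠ x ∧ yz.2 ≠ x ∧ yz.1.im < x.im ∧ yz.2.im < x.im ∧
    ‖yz.1 - x‖ ≤ 1 + D P x ∧ ‖yz.2 - x‖ ≤ 1 + D P x ∧
    1 / 2 ≤ |(yz.1 - x).re * (yz.2 - x).im - (yz.1 - x).im * (yz.2 - x).re|

/-- rigidity: same symbol and known lower neighbours -/
lemma rigid (hLoc : LocStm) {h : ℝ} (hh : 0 < h) (hh2 : h ≤ 1 / 1000) {P P' : Finset ℂ} (hP : Sep P)
    (hP' : Sep P') {x x' : ℂ} (hx : x ∈ P) (hx' : x' ∈ P') {yz yz' : ℂ × ℂ}
    (hs : D P x ≤ 1 / 10 → Spec P x yz) (hs' : D P' x' ≤ 1 / 10 → Spec P' x' yz')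
    (hQ : Qc x = Qc x') (he : symOf h P x yz = symOf h P' x' yz')
    (hlow : ∀ y ∈ P, y.im < x.im → ∃ y' ∈ P', Qc y = Qc y' ∧ dsc h y = dsc h y') :
    dsc h x = dsc h x' := by
  by_cases hb : 1 / 10 < D P x
  · by_cases hb' : 1 / 10 < D P' x'
    · simp only [symOf, if_pos hb, if_pos hb', Option.some.injEq, Sum.inl.injEq, Prod.mk.injEq] at he
      rw [hQ] at he
      ext
      · linarith [he.1]
      · linarith [he.2]
    · rw [symOf, if_pos hb, symOf, if_neg hb', Option.some.injEq] at he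
      exact absurd he (by simp)
  · by_cases hb' : 1 / 10 < D P' x'
    · rw [symOf, if_neg hb, symOf, if_pos hb', Option.some.injEq] at he
      exact absurd he (by simp)
    · simp only [symOf, if_neg hb, if_neg hb', Option.some.injEq, Sum.inr.injEq, Prod.mk.injEq] at he
      obtain ⟨e1, e2, e3, e4, e5, e6⟩ := he
      obtain ⟨m1, m2, n1, n2, l1, l2, d1, d2, dt⟩ := hs (not_lt.1 hb)
      obtain ⟨m1', m2', n1', n2', l1', l2', d1', d2', dt'⟩ := hs' (not_lt.1 hb')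
      rw [hQ] at e1 e2
      have q1 : Qc yz.1 = Qc yz'.1 := sub_left_inj.1 e1
      have q2 : Qc yz.2 = Qc yz'.2 := sub_left_inj.1 e2
      obtain ⟨u, hu, hu1, hu2⟩ := hlow yz.1 m1 l1
      obtain ⟨v, hv, hv1, hv2⟩ := hlow yz.2 m2 l2
      have eu : u = yz'.1 := Qc_inj hP' hu m1' (hu1.symm.trans q1)
      have ev : v = yz'.2 := Qc_inj hP' hv m2' (hv1.symm.trans q2)
      rw [eu] at hu2
      rw [ev] at hv2
      have key : ∀ (a b : ℝ), 1 ≤ a → 1 ≤ b → ⌊(a - 1) / h⌋₊ = ⌊(b - 1) / h⌋₊ → |a - b| ≤ h := by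
        intro a b ha hb hab
        have h1 := Nat.floor_le (a := (a - 1) / h) (div_nonneg (by linarith) hh.le)
        have h2 := Nat.lt_floor_add_one ((a - 1) / h)
        have h3 := Nat.floor_le (a := (b - 1) / h) (div_nonneg (by linarith) hh.le)
        have h4 := Nat.lt_floor_add_one ((b - 1) / h)
        rw [hab] at h1 h2
        rw [le_div_iff₀ hh] at h1 h3
        rw [div_lt_iff₀ hh] at h2 h4
        rw [abs_le]
        constructor <;> linarith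
      have p1 : (1 : ℝ) ≤ ‖yz.1 - x‖ := hP _ m1 _ hx n1
      have p2 : (1 : ℝ) ≤ ‖yz.2 - x‖ := hP _ m2 _ hx n2
      have p1' : (1 : ℝ) ≤ ‖yz'.1 - x'‖ := hP' _ m1' _ hx' n1'
      have p2' : (1 : ℝ) ≤ ‖yz'.2 - x'‖ := hP' _ m2' _ hx' n2'
      have k1 := key _ _ p1 p1' e3
      have k2 := key _ _ p2 p2' e4
      have hfin := hLoc x yz.1 yz.2 x' yz'.1 yz'.2 h hh hh2 (dsc_close hh hu2) (dsc_close hh hv2)
        (by rw [norm_sub_rev x, norm_sub_rev x']; exact k1)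
        (by rw [norm_sub_rev x, norm_sub_rev x']; exact k2)
        (Qc_close hQ) (by rw [norm_sub_rev]; linarith [not_lt.1 hb])
        (by rw [norm_sub_rev]; linarith [not_lt.1 hb]) dt
      have r1 := (Complex.abs_re_le_norm (x - x')).trans hfin
      have r2 := (Complex.abs_im_le_norm (x - x')).trans hfin
      rw [Complex.sub_re] at r1
      rw [Complex.sub_im] at r2
      ext
      · exact floor_eq_of_mod hh r1 e5
      · exact floor_eq_of_mod hh r2 e6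

/-- the code of a packing -/
def code (f : Finset ℂ → ℂ → ℂ × ℂ) (h : ℝ) (P : Finset ℂ) (q : ℤ × ℤ) : Sym :=
  open Classical in
  if hx : ∃ x ∈ P, Qc x = q then symOf h P hx.choose (f P hx.choose) else none

lemma code_of_mem {f : Finset ℂ → ℂ → ℂ × ℂ} {h : ℝ} {P : Finset ℂ} (hP : Sep P) {x : ℂ} (hx : x ∈ P) :
    code f h P (Qc x) = symOf h P x (f P x) := by
  have hex : ∃ x' ∈ P, Qc x' = Qc x := ⟨x, hx, rfl⟩
  have hc : hex.choose = x := Qc_inj hP hex.choose_spec.1 hx hex.choose_spec.2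
  simp only [code, dif_pos hex]
  rw [hc]

lemma code_of_notMem {f : Finset ℂ → ℂ → ℂ × ℂ} {h : ℝ} {P : Finset ℂ} {q : ℤ × ℤ}
    (hq : ¬ ∃ x ∈ P, Qc x = q) : code f h P q = none := by
  simp only [code, dif_neg hq]

lemma symOf_ne_none {h : ℝ} {P : Finset ℂ} {x : ℂ} {yz : ℂ × ℂ} : symOf h P x yz ≠ none := by
  unfold symOf
  split_ifs <;> simp

lemma exists_of_code {f : Finset ℂ → ℂ → ℂ × ℂ} {h : ℝ} {P : Finset ℂ} {q : ℤ × ℤ}
    (hq : code f h P q ≠ none) : ∃ x ∈ P, Qc x = q := by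
  by_contra hc
  exact hq (code_of_notMem hc)

/-- decoding: one inclusion -/
lemma decode (hLoc : LocStm) {f : Finset ℂ → ℂ → ℂ × ℂ}
    (hf : ∀ P x, Sep P → x ∈ P → D P x ≤ 1 / 10 → Spec P x (f P x)) {h : ℝ} (hh : 0 < h)
    (hh2 : h ≤ 1 / 1000) {P P' : Finset ℂ} (hP : Sep P) (hP' : Sep P')
    (hc : ∀ x ∈ P, code f h P (Qc x) = code f h P' (Qc x)) :
    ∀ x ∈ P, ∃ x' ∈ P', Qc x = Qc x' ∧ dsc h x = dsc h x' := by
  have main : ∀ n : ℕ, ∀ x ∈ P, (P.filter fun y => y.im < x.im).card = n →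
      ∃ x' ∈ P', Qc x = Qc x' ∧ dsc h x = dsc h x' := by
    intro n
    induction n using Nat.strong_induction_on with
    | _ n ih =>
      intro x hx hn
      have h1 := hc x hx
      rw [code_of_mem hP hx] at h1
      have h2 : code f h P' (Qc x) ≠ none := by rw [← h1]; exact symOf_ne_none
      obtain ⟨x', hx', hq'⟩ := exists_of_code h2
      rw [← hq', code_of_mem hP' hx'] at h1
      refine ⟨x', hx', hq'.symm, ?_⟩
      refine rigid hLoc hh hh2 hP hP' hx hx' (hf P x hP hx) (hf P' x' hP' hx') hq'.symm h1 ?_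
      intro y hy hyx
      refine ih _ ?_ y hy rfl
      rw [← hn]
      apply Finset.card_lt_card
      rw [Finset.ssubset_iff_of_subset]
      · exact ⟨y, by simp [hy, hyx], by simp⟩
      · intro z hz
        rw [Finset.mem_filter] at hz ⊢
        exact ⟨hz.1, hz.2.trans hyx⟩
  exact fun x hx => main _ x hx rfl

end

end Pool.Agent.W2helper78.KW
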