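import Pool.Agent.W2helper78.KW.Count

/-!
# KW-4b: the entropy count, second part
-/

set_option autoImplicit false

open MeasureTheory Real

namespace Pool.Agent.W2helper78.KW

noncomputable section

/-- the window of relative positions -/
@[irreducible] def Win : Finset (ℤ × ℤ) := Finset.Icc (-120) 120 ×ˢ Finset.Icc (-120) 120

/-- relative grid cells -/
def Rel (h : ℝ) : Finset (ℤ × ℤ) :=
  Finset.Icc 0 (⌊1 / (100 * h)⌋ + 1) ×ˢ Finset.Icc 0 (⌊1 / (100 * h)⌋ + 1)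

/-- data of a good point -/
def Good (h : ℝ) : Finset ((ℤ × ℤ) × (ℤ × ℤ) × ℕ × ℕ × (ℤ × ℤ)) :=
  Win ×ˢ Win ×ˢ Finset.range (⌊1 / h⌋₊ + 1) ×ˢ Finset.range (⌊1 / h⌋₊ + 1) ×ˢ
    (Finset.Ico 0 40 ×ˢ Finset.Ico 0 40)

/-- the alphabet -/
def Alph (h : ℝ) : Finset Sym := Finset.insertNone (Finset.disjSum (Rel h) (Good h))

/-- the weights -/
def wt (h : ℝ) : Sym → ℝ
  | none => 1
  | some (Sum.inl _) => h ^ 2
  | some (Sum.inr (_, _, m, n, _)) => (1 / 2) ^ m * (1 / 2) ^ n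

lemma wt_pos {h : ℝ} (hh : 0 < h) (s : Sym) : 0 < wt h s := by
  rcases s with _ | (u | ⟨a, b, m, n, r⟩)
  · exact one_pos
  · simp only [wt]; positivity
  · simp only [wt]; positivity

/-- the constant -/
def C1 : ℝ := 2 + 241 ^ 2 * (241 ^ 2 * (2 * (2 * 1600)))

lemma geom_le (M : ℕ) : ∑ m ∈ Finset.range M, ((1 : ℝ) / 2) ^ m ≤ 2 := by
  have h := summable_geometric_of_lt_one (r := (1 : ℝ) / 2) (by norm_num) (by norm_num)
  have h2 := h.sum_le_tsum (Finset.range M) (fun i _ => by positivity)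
  rw [tsum_geometric_of_lt_one (by norm_num) (by norm_num)] at h2
  linarith

lemma win_card : (Win.card : ℝ) = 241 ^ 2 := by
  have h1 : (Finset.Icc (-120 : ℤ) 120).card = 241 := by
    rw [Int.card_Icc]; omega
  unfold Win
  rw [Finset.card_product, h1]; norm_num

lemma rel_card {h : ℝ} (hh : 0 < h) (hh2 : h ≤ 1 / 1000) : ((Rel h).card : ℝ) * h ^ 2 ≤ 1 := by
  have h0 : 0 ≤ ⌊1 / (100 * h)⌋ := Int.floor_nonneg.2 (by positivity)
  have h1 : (((Finset.Icc 0 (⌊1 / (100 * h)⌋ + 1)).card : ℕ) : ℝ) = (⌊1 / (100 * h)⌋ : ℝ) + 2 := by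
    rw [Int.card_Icc]
    have : ((⌊1 / (100 * h)⌋ + 1 + 1 - 0).toNat : ℤ) = ⌊1 / (100 * h)⌋ + 2 := by
      rw [Int.toNat_of_nonneg (by omega)]; ring
    exact_mod_cast this
  have h2 : (⌊1 / (100 * h)⌋ : ℝ) ≤ 1 / (100 * h) := Int.floor_le _
  have h3 : ((⌊1 / (100 * h)⌋ : ℝ) + 2) * h ≤ 1 := by
    have : (1 / (100 * h) + 2) * h ≤ 1 := by
      have e : (1 / (100 * h) + 2) * h = 1 / 100 + 2 * h := by field_simp
      rw [e]; linarith
    exact (mul_le_mul_of_nonneg_right (by linarith) hh.le).trans this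
  have h4 : 0 ≤ ((⌊1 / (100 * h)⌋ : ℝ) + 2) * h := by
    have : (0 : ℝ) ≤ ⌊1 / (100 * h)⌋ := by exact_mod_cast h0
    positivity
  unfold Rel
  rw [Finset.card_product, Nat.cast_mul, h1]
  calc ((⌊1 / (100 * h)⌋ : ℝ) + 2) * ((⌊1 / (100 * h)⌋ : ℝ) + 2) * h ^ 2
      = (((⌊1 / (100 * h)⌋ : ℝ) + 2) * h) ^ 2 := by ring
    _ ≤ 1 := by nlinarith

lemma sum_wt {h : ℝ} (hh : 0 < h) (hh2 : h ≤ 1 / 1000) : ∑ s ∈ Alph h, wt h s ≤ C1 := by
  unfold Alph
  rw [Finset.sum_insertNone, Finset.sum_disjSum]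
  have e1 : ∑ x ∈ Rel h, wt h (some (Sum.inl x)) ≤ 1 := by
    simp only [wt, Finset.sum_const, nsmul_eq_mul]
    exact rel_card hh hh2
  have e2 : ∑ x ∈ Good h, wt h (some (Sum.inr x)) ≤ 241 ^ 2 * (241 ^ 2 * (2 * (2 * 1600))) := by
    unfold Good
    rw [Finset.sum_product]
    simp_rw [Finset.sum_product]
    simp only [wt, Finset.sum_const, nsmul_eq_mul, win_card]
    refine mul_le_mul_of_nonneg_left (mul_le_mul_of_nonneg_left ?_ (by norm_num)) (by norm_num)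
    have hg := geom_le (⌊1 / h⌋₊ + 1)
    have hg0 : 0 ≤ ∑ m ∈ Finset.range (⌊1 / h⌋₊ + 1), ((1 : ℝ) / 2) ^ m :=
      Finset.sum_nonneg fun _ _ => by positivity
    have e3 : ∑ x ∈ Finset.range (⌊1 / h⌋₊ + 1), ∑ y ∈ Finset.range (⌊1 / h⌋₊ + 1),
        (((Finset.Ico (0 : ℤ) 40).card : ℕ) : ℝ) * ((((Finset.Ico (0 : ℤ) 40).card : ℕ) : ℝ) *
          (((1 : ℝ) / 2) ^ x * (1 / 2) ^ y)) =
        1600 * ((∑ m ∈ Finset.range (⌊1 / h⌋₊ + 1), ((1 : ℝ) / 2) ^ m) *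
          ∑ m ∈ Finset.range (⌊1 / h⌋₊ + 1), ((1 : ℝ) / 2) ^ m) := by
      rw [Finset.sum_mul_sum, Finset.mul_sum]
      refine Finset.sum_congr rfl fun x _ => ?_
      rw [Finset.mul_sum]
      refine Finset.sum_congr rfl fun y _ => ?_
      have e4 : (Finset.Ico (0 : ℤ) 40).card = 40 := by rw [Int.card_Ico]; omega
      rw [e4]
      push_cast
      ring
    rw [e3]
    nlinarith
  have e0 : wt h none = 1 := rfl
  rw [e0]
  unfold C1
  linarith

lemma rel_mem {h t : ℝ} (hh : 0 < h) :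
    ⌊t / h⌋ - ⌊((⌊100 * t⌋ : ℤ) : ℝ) / 100 / h⌋ ∈ Finset.Icc (0 : ℤ) (⌊1 / (100 * h)⌋ + 1) := by
  have h1 : ((⌊100 * t⌋ : ℤ) : ℝ) / 100 ≤ t := by
    have := Int.floor_le (100 * t); linarith
  have h2 : t < ((⌊100 * t⌋ : ℤ) : ℝ) / 100 + 1 / 100 := by
    have := Int.lt_floor_add_one (100 * t); linarith
  rw [Finset.mem_Icc]
  constructor
  · have : ⌊((⌊100 * t⌋ : ℤ) : ℝ) / 100 / h⌋ ≤ ⌊t / h⌋ := by
      apply Int.floor_le_floor
      gcongr
    omega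
  · have h3 := Int.floor_le (t / h)
    have h4 := Int.lt_floor_add_one (((⌊100 * t⌋ : ℤ) : ℝ) / 100 / h)
    have h5 := Int.lt_floor_add_one (1 / (100 * h))
    have h6 : t / h < ((⌊100 * t⌋ : ℤ) : ℝ) / 100 / h + 1 / (100 * h) := by
      have : 1 / (100 * h) = 1 / 100 / h := by field_simp
      rw [this, ← add_div]
      gcongr
    have h7 : ((⌊t / h⌋ - ⌊((⌊100 * t⌋ : ℤ) : ℝ) / 100 / h⌋ : ℤ) : ℝ) <
        ((⌊1 / (100 * h)⌋ + 2 : ℤ) : ℝ) := by
      push_cast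
      linarith
    have h8 : ⌊t / h⌋ - ⌊((⌊100 * t⌋ : ℤ) : ℝ) / 100 / h⌋ < ⌊1 / (100 * h)⌋ + 2 := by exact_mod_cast h7
    omega

lemma win_mem {x y : ℂ} (hxy : ‖y - x‖ ≤ 11 / 10) : Qc y - Qc x ∈ Win := by
  have key : ∀ s t : ℝ, |s - t| ≤ 11 / 10 → ⌊100 * s⌋ - ⌊100 * t⌋ ∈ Finset.Icc (-120 : ℤ) 120 := by
    intro s t hst
    rw [abs_le] at hst
    have h1 := Int.floor_le (100 * s)
    have h2 := Int.lt_floor_add_one (100 * s)
    have h3 := Int.floor_le (100 * t)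
    have h4 := Int.lt_floor_add_one (100 * t)
    have c1 : ((⌊100 * s⌋ - ⌊100 * t⌋ : ℤ) : ℝ) < ((120 : ℤ) : ℝ) := by push_cast; linarith [hst.2]
    have c2 : ((-120 : ℤ) : ℝ) < ((⌊100 * s⌋ - ⌊100 * t⌋ : ℤ) : ℝ) := by push_cast; linarith [hst.1]
    have c3 : ⌊100 * s⌋ - ⌊100 * t⌋ < 120 := by exact_mod_cast c1
    have c4 : -120 < ⌊100 * s⌋ - ⌊100 * t⌋ := by exact_mod_cast c2
    rw [Finset.mem_Icc]
    omega
  have r1 := (Complex.abs_re_le_norm (y - x)).trans hxy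
  have r2 := (Complex.abs_im_le_norm (y - x)).trans hxy
  rw [Complex.sub_re] at r1
  rw [Complex.sub_im] at r2
  unfold Win
  rw [Finset.mem_product]
  exact ⟨key _ _ r1, key _ _ r2⟩

lemma sym_mem {h : ℝ} (hh : 0 < h) {P : Finset ℂ} {x : ℂ}
    {yz : ℂ × ℂ} (hs : D P x ≤ 1 / 10 → Spec P x yz) : symOf h P x yz ∈ Alph h := by
  unfold Alph
  by_cases hb : 1 / 10 < D P x
  · rw [symOf, if_pos hb, Finset.some_mem_insertNone, Finset.inl_mem_disjSum]
    unfold Rel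
    rw [Finset.mem_product]
    exact ⟨rel_mem hh, rel_mem hh⟩
  · have hb' := not_lt.1 hb
    have hsp := hs hb'
    have d1 : ‖yz.1 - x‖ ≤ 1 + D P x := hsp.2.2.2.2.2.2.1
    have d2 : ‖yz.2 - x‖ ≤ 1 + D P x := hsp.2.2.2.2.2.2.2.1
    have g1 : ‖yz.1 - x‖ ≤ 11 / 10 := by linarith only [d1, hb']
    have g2 : ‖yz.2 - x‖ ≤ 11 / 10 := by linarith only [d2, hb']
    have w1 := win_mem (x := x) (y := yz.1) g1
    have w2 := win_mem (x := x) (y := yz.2) g2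
    rw [symOf, if_neg hb, Finset.some_mem_insertNone, Finset.inr_mem_disjSum, Good]
    have key : ∀ a : ℝ, a ≤ 1 + D P x → ⌊(a - 1) / h⌋₊ < ⌊1 / h⌋₊ + 1 := by
      intro a ha
      rw [Nat.lt_succ_iff]
      apply Nat.floor_le_floor
      gcongr
      linarith
    simp only [Finset.mem_product, Finset.mem_range, Finset.mem_Ico]
    exact ⟨w1, w2, key _ d1, key _ d2, ⟨Int.emod_nonneg _ (by norm_num),
      Int.emod_lt_of_pos _ (by norm_num)⟩, ⟨Int.emod_nonneg _ (by norm_num),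
      Int.emod_lt_of_pos _ (by norm_num)⟩⟩

lemma none_mem (h : ℝ) : (none : Sym) ∈ Alph h := by
  unfold Alph; exact Finset.none_mem_insertNone

lemma wt_ge {h : ℝ} (hh : 0 < h) {P : Finset ℂ} {x : ℂ} {yz : ℂ × ℂ}
    (hs : D P x ≤ 1 / 10 → Spec P x yz) (hD : 0 ≤ D P x) (hP : Sep P) (hx : x ∈ P) :
    exp (-(20 / h * D P x)) ≤ wt h (symOf h P x yz) := by
  by_cases hb : 1 / 10 < D P x
  · rw [symOf, if_pos hb]
    change exp (-(20 / h * D P x)) ≤ h ^ 2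
    have h1 : Real.log (1 / h) ≤ 1 / h - 1 := Real.log_le_sub_one_of_pos (by positivity)
    have h2 : exp (-(2 * Real.log (1 / h))) = h ^ 2 := by
      rw [one_div, Real.log_inv]
      rw [show -(2 * -Real.log h) = Real.log h + Real.log h by ring, Real.exp_add,
        Real.exp_log hh]
      ring
    rw [← h2]
    apply Real.exp_le_exp.2
    have h3 : 2 / h ≤ 20 / h * D P x := by
      rw [div_mul_eq_mul_div]
      gcongr
      linarith
    have h4 : 2 * (1 / h) = 2 / h := by ring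
    linarith
  · rw [symOf, if_neg hb]
    obtain ⟨m1, m2, n1, n2, l1, l2, d1, d2, dt⟩ := hs (not_lt.1 hb)
    have p1 : (1 : ℝ) ≤ ‖yz.1 - x‖ := hP _ m1 _ hx n1
    have p2 : (1 : ℝ) ≤ ‖yz.2 - x‖ := hP _ m2 _ hx n2
    change exp (-(20 / h * D P x)) ≤ (1 / 2) ^ ⌊(‖yz.1 - x‖ - 1) / h⌋₊ * (1 / 2) ^ ⌊(‖yz.2 - x‖ - 1) / h⌋₊
    have key : ∀ a : ℝ, 1 ≤ a → a ≤ 1 + D P x → exp (-(D P x / h)) ≤ (1 / 2 : ℝ) ^ ⌊(a - 1) / h⌋₊ := by
      intro a ha1 ha2
      have e1 : (1 / 2 : ℝ) ^ ⌊(a - 1) / h⌋₊ = exp (-(⌊(a - 1) / h⌋₊ * Real.log 2)) := by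
        rw [← mul_neg, Real.exp_nat_mul, Real.exp_neg, Real.exp_log (by norm_num)]
        norm_num
      rw [e1]
      apply Real.exp_le_exp.2
      have e2 := Nat.floor_le (a := (a - 1) / h) (div_nonneg (by linarith) hh.le)
      have e3 : (a - 1) / h ≤ D P x / h := by gcongr; linarith
      have e4 : Real.log 2 ≤ 1 := by
        have := Real.log_two_lt_d9; linarith
      have e5 : (0 : ℝ) ≤ ⌊(a - 1) / h⌋₊ := Nat.cast_nonneg _
      have e6 : (⌊(a - 1) / h⌋₊ : ℝ) * Real.log 2 ≤ ⌊(a - 1) / h⌋₊ := by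
        nlinarith
      linarith
    calc exp (-(20 / h * D P x)) ≤ exp (-(D P x / h)) * exp (-(D P x / h)) := by
          rw [← Real.exp_add]
          apply Real.exp_le_exp.2
          have : 0 ≤ D P x / h := by positivity
          have e : 20 / h * D P x = 20 * (D P x / h) := by ring
          rw [e]
          linarith
      _ ≤ _ := mul_le_mul (key _ p1 d1) (key _ p2 d2) (Real.exp_pos _).le (by positivity)

/-- the coarse cells of the box -/
def II (L : ℝ) : Finset (ℤ × ℤ) := Finset.Icc 0 ⌊100 * L⌋ ×ˢ Finset.Icc 0 ⌊100 * L⌋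

lemma Qc_mem {L : ℝ} {x : ℂ} (hx : x ∈ box L) : Qc x ∈ II L := by
  obtain ⟨⟨h1, h2⟩, ⟨h3, h4⟩⟩ := hx
  unfold II Qc
  rw [Finset.mem_product, Finset.mem_Icc, Finset.mem_Icc]
  refine ⟨⟨Int.floor_nonneg.2 (by linarith), Int.floor_le_floor (by linarith)⟩,
    ⟨Int.floor_nonneg.2 (by linarith), Int.floor_le_floor (by linarith)⟩⟩

lemma II_card {L : ℝ} (hL : 1 ≤ L) : ((II L).card : ℝ) ≤ 10201 * L ^ 2 := by
  have h0 : 0 ≤ ⌊100 * L⌋ := Int.floor_nonneg.2 (by linarith)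
  have h1 : (((Finset.Icc 0 ⌊100 * L⌋).card : ℕ) : ℝ) = (⌊100 * L⌋ : ℝ) + 1 := by
    rw [Int.card_Icc]
    have : ((⌊100 * L⌋ + 1 - 0).toNat : ℤ) = ⌊100 * L⌋ + 1 := by
      rw [Int.toNat_of_nonneg (by omega)]; ring
    exact_mod_cast this
  have h2 : (⌊100 * L⌋ : ℝ) ≤ 100 * L := Int.floor_le _
  have h3 : (0 : ℝ) ≤ ⌊100 * L⌋ := by exact_mod_cast h0
  unfold II
  rw [Finset.card_product, Nat.cast_mul, h1]
  nlinarith

lemma prod_wt_ge {f : Finset ℂ → ℂ → ℂ × ℂ}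
    (hf : ∀ P x, Sep P → x ∈ P → D P x ≤ 1 / 10 → Spec P x (f P x))
    (hD : ∀ P x, Sep P → x ∈ P → 0 ≤ D P x) {h L T : ℝ} (hh : 0 < h) {P : Finset ℂ} (hP : Sep P)
    (hB : ∀ x ∈ P, x ∈ box L) (hT : ∑ x ∈ P, D P x ≤ T) :
    exp (-(20 / h * T)) ≤ ∏ q ∈ II L, wt h (code f h P q) := by
  have h1 : ∏ q ∈ II L, ∏ x ∈ P.filter (fun x => Qc x = q), exp (-(20 / h * D P x)) =
      ∏ x ∈ P, exp (-(20 / h * D P x)) :=
    Finset.prod_fiberwise_of_maps_to (fun x hx => Qc_mem (hB x hx)) _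
  have h2 : exp (-(20 / h * T)) ≤ ∏ x ∈ P, exp (-(20 / h * D P x)) := by
    rw [← Real.exp_sum]
    apply Real.exp_le_exp.2
    rw [Finset.sum_neg_distrib, ← Finset.mul_sum]
    have : 20 / h * ∑ x ∈ P, D P x ≤ 20 / h * T := by gcongr
    linarith
  refine h2.trans ?_
  rw [← h1]
  refine Finset.prod_le_prod (fun q _ => Finset.prod_nonneg fun x _ => (Real.exp_pos _).le) ?_
  intro q _
  by_cases hq : ∃ x ∈ P, Qc x = q
  · obtain ⟨x, hx, rfl⟩ := hq
    have h3 : P.filter (fun y => Qc y = Qc x) = {x} := by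
      ext y
      rw [Finset.mem_filter, Finset.mem_singleton]
      constructor
      · rintro ⟨hy, hyx⟩
        exact Qc_inj hP hy hx hyx
      · rintro rfl
        exact ⟨hx, rfl⟩
    rw [h3, Finset.prod_singleton, code_of_mem hP hx]
    exact wt_ge hh (hf P x hP hx) (hD P x hP hx) hP hx
  · have h3 : P.filter (fun y => Qc y = q) = ∅ := by
      rw [Finset.filter_eq_empty_iff]
      intro y hy hyq
      exact hq ⟨y, hy, hyq⟩
    rw [h3, Finset.prod_empty, code_of_notMem hq]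
    exact le_of_eq rfl

lemma code_mem {f : Finset ℂ → ℂ → ℂ × ℂ}
    (hf : ∀ P x, Sep P → x ∈ P → D P x ≤ 1 / 10 → Spec P x (f P x)) {h : ℝ} (hh : 0 < h)
    {P : Finset ℂ} (hP : Sep P) (q : ℤ × ℤ) : code f h P q ∈ Alph h := by
  by_cases hq : ∃ x ∈ P, Qc x = q
  · obtain ⟨x, hx, rfl⟩ := hq
    rw [code_of_mem hP hx]
    exact sym_mem hh (hf P x hP hx)
  · rw [code_of_notMem hq]
    exact none_mem h

theorem count (hLow : LowStm) (hLoc : LocStm) (hArea : AreaStm) : CountStm := by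
  classical
  have hex : ∀ (P : Finset ℂ) (x : ℂ), ∃ yz : ℂ × ℂ,
      Sep P → x ∈ P → D P x ≤ 1 / 10 → Spec P x yz := by
    intro P x
    by_cases hc : Sep P ∧ x ∈ P ∧ D P x ≤ 1 / 10
    · obtain ⟨y, hy, z, hz, h1, h2, h3, h4, h5, h6, h7⟩ := hLow P x hc.1 hc.2.1 hc.2.2
      exact ⟨(y, z), fun _ _ _ => ⟨hy, hz, h1, h2, h3, h4, h5, h6, h7⟩⟩
    · exact ⟨(0, 0), fun a b c => absurd ⟨a, b, c⟩ hc⟩
  choose f hf using hex
  have hD : ∀ P x, Sep P → x ∈ P → 0 ≤ D P x := fun P x hP hx => (hArea P x hP hx).1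
  have hC1 : (2 : ℝ) ≤ C1 := by unfold C1; norm_num
  have hlog : 0 < Real.log C1 := Real.log_pos (by linarith)
  refine ⟨20 + 10201 * Real.log C1, by positivity, ?_⟩
  intro h L T hh hh2 hL hT
  set W := SS h L T with hW
  -- choice of the packing
  have hch : ∀ S : Finset (ℤ × ℤ), ∃ P : Finset ℂ, S ∈ W →
      Sep P ∧ (∀ x ∈ P, x ∈ box L) ∧ ∑ x ∈ P, D P x ≤ T ∧ S = P.image (dsc h) := by
    intro S
    by_cases hS : S ∈ W
    · obtain ⟨P, hP⟩ := hS
      exact ⟨P, fun _ => hP⟩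
    · exact ⟨∅, fun h' => absurd h' hS⟩
  choose g hg using hch
  let Φ : Finset (ℤ × ℤ) → (II L → Sym) := fun S q => code f h (g S) q
  have hinj : Set.InjOn Φ W := by
    intro S hS S' hS' he
    obtain ⟨a1, a2, a3, a4⟩ := hg S hS
    obtain ⟨b1, b2, b3, b4⟩ := hg S' hS'
    have hc : ∀ q ∈ II L, code f h (g S) q = code f h (g S') q := by
      intro q hq
      exact congrFun he ⟨q, hq⟩
    have d1 := decode hLoc hf hh hh2 a1 b1 (fun x hx => hc _ (Qc_mem (a2 x hx)))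
    have d2 := decode hLoc hf hh hh2 b1 a1 (fun x hx => (hc _ (Qc_mem (b2 x hx))).symm)
    rw [a4, b4]
    ext u
    rw [Finset.mem_image, Finset.mem_image]
    constructor
    · rintro ⟨x, hx, rfl⟩
      obtain ⟨x', hx', _, h2⟩ := d1 x hx
      exact ⟨x', hx', h2.symm⟩
    · rintro ⟨x, hx, rfl⟩
      obtain ⟨x', hx', _, h2⟩ := d2 x hx
      exact ⟨x', hx', h2.symm⟩
  have hmaps : ∀ S ∈ W, Φ S ∈ Fintype.piFinset (fun _ : II L => Alph h) := by
    intro S hS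
    rw [Fintype.mem_piFinset]
    intro q
    exact code_mem hf hh (hg S hS).1 _
  have hfin : W.Finite := by
    refine Set.Finite.of_finite_image ?_ hinj
    refine Set.Finite.subset (Finset.finite_toSet (Fintype.piFinset (fun _ : II L => Alph h))) ?_
    rintro _ ⟨S, hS, rfl⟩
    exact hmaps S hS
  refine ⟨hfin, ?_⟩
  rw [Set.ncard_eq_toFinset_card W hfin]
  set F := hfin.toFinset with hF
  have hFm : ∀ S, S ∈ F ↔ S ∈ W := fun S => by rw [hF, Set.Finite.mem_toFinset]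
  have key : (F.card : ℝ) * exp (-(20 / h * T)) ≤ C1 ^ (II L).card := by
    calc (F.card : ℝ) * exp (-(20 / h * T)) = ∑ S ∈ F, exp (-(20 / h * T)) := by
          rw [Finset.sum_const, nsmul_eq_mul]
      _ ≤ ∑ S ∈ F, ∏ q : II L, wt h (Φ S q) := by
          refine Finset.sum_le_sum fun S hS => ?_
          obtain ⟨a1, a2, a3, a4⟩ := hg S ((hFm S).1 hS)
          have := prod_wt_ge hf hD hh a1 a2 a3
          rwa [← Finset.prod_coe_sort] at this
      _ = ∑ c ∈ F.image Φ, ∏ q : II L, wt h (c q) := by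
          rw [Finset.sum_image]
          intro S hS S' hS' he
          exact hinj ((hFm S).1 hS) ((hFm S').1 hS') he
      _ ≤ ∑ c ∈ Fintype.piFinset (fun _ : II L => Alph h), ∏ q : II L, wt h (c q) := by
          refine Finset.sum_le_sum_of_subset_of_nonneg ?_ ?_
          · intro c hc
            rw [Finset.mem_image] at hc
            obtain ⟨S, hS, rfl⟩ := hc
            exact hmaps S ((hFm S).1 hS)
          · intro c _ _
            exact Finset.prod_nonneg fun q _ => (wt_pos hh _).le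
      _ = ∏ q : II L, ∑ s ∈ Alph h, wt h s := by
          rw [Finset.prod_univ_sum]
      _ = (∑ s ∈ Alph h, wt h s) ^ (II L).card := by
          rw [Finset.prod_const, Finset.card_univ, Fintype.card_coe]
      _ ≤ C1 ^ (II L).card := by
          refine pow_le_pow_left₀ (Finset.sum_nonneg fun s _ => (wt_pos hh _).le) (sum_wt hh hh2) _
  have h3 : (F.card : ℝ) ≤ C1 ^ (II L).card * exp (20 / h * T) := by
    have : (F.card : ℝ) = (F.card : ℝ) * exp (-(20 / h * T)) * exp (20 / h * T) := by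
      rw [mul_assoc, ← Real.exp_add]; simp
    rw [this]
    exact mul_le_mul_of_nonneg_right key (Real.exp_pos _).le
  refine h3.trans ?_
  have h4 : C1 ^ (II L).card = exp ((II L).card * Real.log C1) := by
    rw [Real.exp_nat_mul, Real.exp_log (by linarith)]
  rw [h4, ← Real.exp_add]
  apply Real.exp_le_exp.2
  have h5 := II_card hL
  have h6 : ((II L).card : ℝ) * Real.log C1 ≤ 10201 * L ^ 2 * Real.log C1 :=
    mul_le_mul_of_nonneg_right h5 hlog.le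
  have h7 : 20 / h * T = 20 * (T / h) := by ring
  have h8 : 0 ≤ T / h := by positivity
  rw [h7]
  nlinarith [mul_nonneg hlog.le h8, sq_nonneg L]

end

end Pool.Agent.W2helper78.KW
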