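import Pool.Agent.W2helper78.KW.Count2
import Pool.Agent.W2helper14.KW.Disc
import Pool.Agent.W2helper14.KW.Lower
import Pool.Agent.W2helper88.KW.Area
import Pool.Agent.W2helper54.KW.Low
import Pool.Agent.W2helper19.KW.Cap
import Pool.Agent.W2helper19.KW.Loc

/-!
# Hard disks near close packing: assembly (diameter one)
-/

set_option autoImplicit false

open MeasureTheory Real Filter Topology

namespace Pool.Agent.W2helper78.KW

noncomputable section

theorem areaStm : AreaStm := Pool.Agent.W2helper88.KW.area Pool.Agent.W2helper19.KW.capStm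
  Pool.Agent.W2helper54.KW.arcStm

theorem sumStm : SumStm := Pool.Agent.W2helper88.KW.summ areaStm

theorem discStm : DiscStm := Pool.Agent.W2helper14.KW.disc sumStm

theorem countStm : CountStm := count Pool.Agent.W2helper54.KW.lowStm Pool.Agent.W2helper19.KW.locStm
  areaStm

/-- the partition function at diameter one -/
def Z1 (N : ℕ) (L : ℝ) : ℝ := (N.factorial : ℝ)⁻¹ * volume.real (Conf N L)

lemma Z1_lower {b L : ℝ} {N : ℕ} (hb : 1 < b) (hL : 0 ≤ L)
    (hN : N ≤ ⌊L / b⌋₊ * ⌊2 * L / (√3 * b)⌋₊) : ((b - 1) / 2) ^ (2 * N) ≤ Z1 N L := by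
  have h := Pool.Agent.W2helper14.KW.lower b L N hb hL hN
  unfold Z1
  have hf : (0 : ℝ) < N.factorial := by exact_mod_cast Nat.factorial_pos N
  rw [le_inv_mul_iff₀ hf]
  exact h

lemma Z1_upper : ∃ C : ℝ, 0 < C ∧ ∀ (h L : ℝ) (N : ℕ), 0 < h → h ≤ 1 / 1000 → 1 ≤ L →
    50 * ((L + 2) ^ 2 - √3 / 2 * N) ≤ 60 * h * L ^ 2 →
    Z1 N L ≤ h ^ (2 * N) * exp (C * L ^ 2) := by
  obtain ⟨C, hC, hcount⟩ := countStm
  refine ⟨61 * C, by positivity, ?_⟩
  intro h L N hh hh2 hL hT
  obtain ⟨hfin, hcard⟩ := hcount h L (60 * h * L ^ 2) hh hh2 hL (by positivity)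
  have hd := discStm N L h (60 * h * L ^ 2) (by linarith) hh hh2 hT hfin
  have hf : (0 : ℝ) < N.factorial := by exact_mod_cast Nat.factorial_pos N
  unfold Z1
  rw [inv_mul_le_iff₀ hf]
  refine hd.trans ?_
  have e : C * (L ^ 2 + 60 * h * L ^ 2 / h) = 61 * C * L ^ 2 := by
    field_simp; ring
  rw [e] at hcard
  exact mul_le_mul_of_nonneg_left (mul_le_mul_of_nonneg_left hcard (by positivity)) hf.le

lemma conf_subset (N : ℕ) (L : ℝ) :
    Conf N L ⊆ Set.pi Set.univ fun _ : Fin N => Set.pi Set.univ fun _ : Fin 2 => Set.Icc (0 : ℝ) L := by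
  intro x hx
  simp only [Set.mem_pi, Set.mem_univ, true_implies]
  exact hx.1

lemma vol_box (N : ℕ) {L : ℝ} (hL : 0 ≤ L) :
    volume (Set.pi Set.univ fun _ : Fin N => Set.pi Set.univ fun _ : Fin 2 => Set.Icc (0 : ℝ) L) =
      ENNReal.ofReal (L ^ (2 * N)) := by
  rw [MeasureTheory.volume_pi_pi]
  simp only [MeasureTheory.volume_pi_pi, Real.volume_Icc, sub_zero, Finset.prod_const,
    Finset.card_univ, Fintype.card_fin]
  rw [pow_mul, ENNReal.ofReal_pow (by positivity), ENNReal.ofReal_pow hL]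

lemma Z1_trivial (N : ℕ) {L : ℝ} (hL : 0 ≤ L) : Z1 N L ≤ (N.factorial : ℝ)⁻¹ * L ^ (2 * N) := by
  unfold Z1
  refine mul_le_mul_of_nonneg_left ?_ (by positivity)
  have h1 := measure_mono (μ := volume) (conf_subset N L)
  rw [vol_box N hL] at h1
  rw [Measure.real]
  have h2 := ENNReal.toReal_mono ENNReal.ofReal_ne_top h1
  rwa [ENNReal.toReal_ofReal (by positivity)] at h2

lemma log_Z1_trivial {N : ℕ} (hN : 0 < N) {L : ℝ} (hL : 0 < L) (hZ : 0 < Z1 N L) :
    Real.log (Z1 N L) / N ≤ 1 - Real.log (N / L ^ 2) := by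
  have hN' : (0 : ℝ) < N := by exact_mod_cast hN
  have h1 := Z1_trivial N hL.le
  have h2 := Real.pow_div_factorial_le_exp (x := (N : ℝ)) hN'.le N
  have h3 : Z1 N L ≤ exp N * (L ^ 2 / N) ^ N := by
    refine h1.trans ?_
    have e : exp N * (L ^ 2 / N) ^ N = exp N / (N : ℝ) ^ N * L ^ (2 * N) := by
      rw [div_pow, ← pow_mul]; ring
    rw [e]
    refine mul_le_mul_of_nonneg_right ?_ (by positivity)
    rw [le_div_iff₀ (by positivity)]
    calc (N.factorial : ℝ)⁻¹ * (N : ℝ) ^ N = (N : ℝ) ^ N / N.factorial := by ring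
      _ ≤ exp N := h2
  have h4 := Real.log_le_log hZ h3
  rw [Real.log_mul (Real.exp_pos _).ne' (by positivity), Real.log_exp, Real.log_pow] at h4
  have h5 : Real.log (L ^ 2 / N) = -Real.log (N / L ^ 2) := by
    rw [← Real.log_inv, inv_div]
  rw [h5] at h4
  rw [div_le_iff₀ hN']
  linarith

/-- the candidates, diameter one -/
def G1 (ρ : ℝ) : ℝ := Real.log ρ - 2 * Real.log (1 - ρ * (√3 / 2))

/-- The estimate at diameter one. -/
theorem main1 : ∃ C : ℝ, 0 < C ∧ ∀ ρ : ℝ, 0 < ρ → ρ * (√3 / 2) < 1 → ∀ (N : ℕ → ℕ) (L : ℕ → ℝ),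
    Tendsto L atTop atTop → Tendsto (fun j => (N j : ℝ) / L j ^ 2) atTop (𝓝 ρ) →
    ∀ᶠ j in atTop, 0 < Z1 (N j) (L j) ∧ |-(Real.log (Z1 (N j) (L j))) / N j - G1 ρ| ≤ C := by
  obtain ⟨C, hC, hup⟩ := Z1_upper
  have h3 : (0 : ℝ) < √3 := by positivity
  have h3' : √3 ^ 2 = 3 := Real.sq_sqrt (by norm_num)
  refine ⟨C + 20, by positivity, ?_⟩
  intro ρ hρ hρ1 N L hL hN
  -- the number `κ`
  obtain ⟨s, hs0, hs⟩ : ∃ s : ℝ, 0 < s ∧ s ^ 2 * (ρ * (√3 / 2)) = 1 := by
    refine ⟨√(1 / (ρ * (√3 / 2))), by positivity, ?_⟩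
    rw [Real.sq_sqrt (by positivity)]
    field_simp
  have hs1 : 1 < s := by
    by_contra hc
    rw [not_lt] at hc
    have : s ^ 2 ≤ 1 := by nlinarith
    have h4 : 0 < ρ * (√3 / 2) := by positivity
    nlinarith
  set b := (1 + s) / 2 with hb
  have hb1 : 1 < b := by rw [hb]; linarith
  have hbs : b < s := by rw [hb]; linarith
  have hb0 : 0 < b := by linarith
  -- eventually the arrangement fits
  have hL0 : ∀ᶠ j in atTop, 1 ≤ L j := hL.eventually_ge_atTop 1
  have t1 : Tendsto (fun j => (⌊L j / b⌋₊ : ℝ) / L j) atTop (𝓝 (1 / b)) := by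
    have := (tendsto_nat_floor_mul_div_atTop (R := ℝ) (a := 1 / b) (by positivity)).comp hL
    refine this.congr fun j => ?_
    simp only [Function.comp]
    rw [one_div, inv_mul_eq_div]
  have t2 : Tendsto (fun j => (⌊2 * L j / (√3 * b)⌋₊ : ℝ) / L j) atTop (𝓝 (2 / (√3 * b))) := by
    have := (tendsto_nat_floor_mul_div_atTop (R := ℝ) (a := 2 / (√3 * b)) (by positivity)).comp hL
    refine this.congr fun j => ?_
    simp only [Function.comp]
    rw [div_mul_eq_mul_div]
  have t3 := t1.mul t2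
  have hlt : ρ < 1 / b * (2 / (√3 * b)) := by
    have e : 1 / b * (2 / (√3 * b)) = 2 / √3 / b ^ 2 := by field_simp
    rw [e, lt_div_iff₀ (by positivity), lt_div_iff₀ h3]
    have : ρ * b ^ 2 * √3 < ρ * s ^ 2 * √3 := by
      have : b ^ 2 < s ^ 2 := by nlinarith
      have := mul_pos hρ h3
      nlinarith
    nlinarith
  have hev1 : ∀ᶠ j in atTop, N j ≤ ⌊L j / b⌋₊ * ⌊2 * L j / (√3 * b)⌋₊ := by
    have := hN.eventually_lt t3 hlt
    filter_upwards [this, hL0] with j hj hLj
    have hLp : 0 < L j := by linarith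
    have e : (⌊L j / b⌋₊ : ℝ) / L j * ((⌊2 * L j / (√3 * b)⌋₊ : ℝ) / L j) =
        ((⌊L j / b⌋₊ * ⌊2 * L j / (√3 * b)⌋₊ : ℕ) : ℝ) / L j ^ 2 := by
      push_cast; field_simp
    rw [e] at hj
    have h5 := (div_lt_div_iff_of_pos_right (by positivity : (0 : ℝ) < L j ^ 2)).1 hj
    exact le_of_lt (by exact_mod_cast h5)
  -- the number of particles is positive
  have hNpos : ∀ᶠ j in atTop, 0 < N j := by
    have := hN.eventually (lt_mem_nhds hρ)
    filter_upwards [this] with j hj
    by_contra hc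
    have : N j = 0 := by omega
    rw [this] at hj
    simp at hj
  -- lower bound of `Z`
  have hlow : ∀ᶠ j in atTop, 0 < Z1 (N j) (L j) ∧
      -(Real.log (Z1 (N j) (L j))) / N j ≤ G1 ρ + 5 := by
    filter_upwards [hev1, hL0, hNpos] with j h1 h2 h4
    have h5 := Z1_lower hb1 (by linarith) h1
    have hb2 : 0 < (b - 1) / 2 := by linarith
    have hZ : 0 < Z1 (N j) (L j) := lt_of_lt_of_le (by positivity) h5
    refine ⟨hZ, ?_⟩
    have h6 := Real.log_le_log (by positivity) h5
    rw [Real.log_pow] at h6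
    have hN' : (0 : ℝ) < N j := by exact_mod_cast h4
    have h7 : -(Real.log (Z1 (N j) (L j))) / N j ≤ -(2 * Real.log ((b - 1) / 2)) := by
      rw [div_le_iff₀ hN']
      push_cast at h6
      linarith
    refine h7.trans ?_
    -- compare
    have e1 : (b - 1) / 2 = (s - 1) / 4 := by rw [hb]; ring
    have hx : 1 - ρ * (√3 / 2) = (s ^ 2 - 1) / s ^ 2 := by
      field_simp
      nlinarith
    have hρs : ρ = 2 / √3 / s ^ 2 := by
      field_simp
      nlinarith
    have hG : G1 ρ = Real.log (2 / √3) + 2 * Real.log s - 2 * Real.log (s - 1) -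
        2 * Real.log (s + 1) := by
      have a1 : Real.log ρ = Real.log (2 / √3) - 2 * Real.log s := by
        rw [hρs, Real.log_div (by positivity) (by positivity), Real.log_pow]; push_cast; ring
      have a2 : Real.log (1 - ρ * (√3 / 2)) = Real.log (s - 1) + Real.log (s + 1) - 2 * Real.log s := by
        rw [hx, Real.log_div (by nlinarith) (by positivity), Real.log_pow,
          show s ^ 2 - 1 = (s - 1) * (s + 1) by ring, Real.log_mul (by linarith) (by linarith)]
        push_cast; ring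
      unfold G1
      rw [a1, a2]; ring
    rw [hG, e1, Real.log_div (by linarith) (by norm_num)]
    have a3 : 0 ≤ Real.log (2 / √3) := by
      apply Real.log_nonneg
      rw [le_div_iff₀ h3, one_mul]
      nlinarith [Real.sqrt_nonneg 3]
    have a4 : Real.log (s + 1) ≤ Real.log 2 + Real.log s := by
      rw [← Real.log_mul (by norm_num) (by linarith)]
      exact Real.log_le_log (by linarith) (by linarith)
    have a5 : Real.log 4 = 2 * Real.log 2 := by
      rw [show (4 : ℝ) = 2 ^ 2 by norm_num, Real.log_pow]; norm_num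
    have a6 := Real.log_two_lt_d9
    rw [a5]
    linarith
  -- upper bound of `Z`
  have hupp : ∀ᶠ j in atTop, 0 < Z1 (N j) (L j) → G1 ρ - (C + 20) ≤ -(Real.log (Z1 (N j) (L j))) / N j := by
    set δ := 1 - ρ * (√3 / 2) with hδ
    have hδ0 : 0 < δ := by rw [hδ]; linarith
    by_cases hδ1 : 1 / 1000 < δ
    · -- low density
      have t4 : Tendsto (fun j => Real.log ((N j : ℝ) / L j ^ 2)) atTop (𝓝 (Real.log ρ)) :=
        hN.log hρ.ne'
      have hev2 : ∀ᶠ j in atTop, Real.log ρ - 1 < Real.log ((N j : ℝ) / L j ^ 2) :=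
        t4.eventually (lt_mem_nhds (by linarith))
      filter_upwards [hev2, hL0, hNpos] with j h1 h2 h4 hZ
      have h5 := log_Z1_trivial h4 (by linarith) hZ
      have h6 : -(Real.log (Z1 (N j) (L j))) / N j = -(Real.log (Z1 (N j) (L j)) / N j) := by ring
      rw [h6]
      have h7 : -Real.log δ ≤ Real.log 1000 := by
        rw [← Real.log_inv]
        apply Real.log_le_log (by positivity)
        rw [inv_le_comm₀ hδ0 (by norm_num)]
        linarith
      have h8 : Real.log 1000 ≤ 8 := by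
        rw [Real.log_le_iff_le_exp (by norm_num)]
        have := Real.exp_one_gt_d9
        calc (1000 : ℝ) ≤ 2.7 ^ 8 := by norm_num
          _ ≤ (exp 1) ^ 8 := by gcongr; linarith
          _ = exp 8 := by rw [← Real.exp_nat_mul]; norm_num
      unfold G1
      rw [← hδ]
      linarith
    · -- high density
      rw [not_lt] at hδ1
      have t5 : Tendsto (fun j => 50 * ((1 + 2 / L j) ^ 2 - √3 / 2 * ((N j : ℝ) / L j ^ 2))) atTop
          (𝓝 (50 * ((1 + 0) ^ 2 - √3 / 2 * ρ))) := by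
        have : Tendsto (fun j => 2 / L j) atTop (𝓝 0) := tendsto_const_nhds.div_atTop hL
        exact (((tendsto_const_nhds.add this).pow 2).sub (hN.const_mul _)).const_mul _
      have hlim : 50 * ((1 + 0) ^ 2 - √3 / 2 * ρ) < 60 * δ := by
        rw [hδ]; nlinarith
      have hev3 := t5.eventually (gt_mem_nhds hlim)
      have hev4 : ∀ᶠ j in atTop, 1 < (N j : ℝ) / L j ^ 2 := by
        refine hN.eventually (lt_mem_nhds ?_)
        have : √3 < 1.74 := by rw [Real.sqrt_lt' (by norm_num)]; norm_num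
        nlinarith
      filter_upwards [hev3, hev4, hL0, hNpos] with j h1 h2 h4 h5 hZ
      have hLp : 0 < L j := by linarith
      have hN' : (0 : ℝ) < N j := by exact_mod_cast h5
      have h6 : 50 * ((L j + 2) ^ 2 - √3 / 2 * N j) ≤ 60 * δ * L j ^ 2 := by
        have e : 50 * ((L j + 2) ^ 2 - √3 / 2 * N j) =
            50 * ((1 + 2 / L j) ^ 2 - √3 / 2 * ((N j : ℝ) / L j ^ 2)) * L j ^ 2 := by
          field_simp
        rw [e]
        exact mul_le_mul_of_nonneg_right h1.le (by positivity)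
      have h7 := hup δ (L j) (N j) hδ0 hδ1 h4 h6
      have h8 := Real.log_le_log hZ h7
      rw [Real.log_mul (by positivity) (Real.exp_pos _).ne', Real.log_pow, Real.log_exp] at h8
      have h9 : L j ^ 2 ≤ N j := by
        rw [lt_div_iff₀ (by positivity), one_mul] at h2
        exact h2.le
      have h10 : C * L j ^ 2 ≤ C * N j := mul_le_mul_of_nonneg_left h9 hC.le
      have h11 : Real.log ρ ≤ 1 := by
        have h12 : ρ ≤ 2 := by
          have : 1.7 < √3 := by rw [Real.lt_sqrt (by norm_num)]; norm_num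
          nlinarith
        have := Real.log_le_sub_one_of_pos hρ
        linarith
      rw [le_div_iff₀ hN']
      unfold G1
      rw [← hδ]
      push_cast at h8
      nlinarith
  filter_upwards [hlow, hupp] with j h1 h2
  refine ⟨h1.1, ?_⟩
  rw [abs_le]
  have := h2 h1.1
  constructor <;> linarith [h1.2]

end

end Pool.Agent.W2helper78.KW
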