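import Pool.Agent.W2helper78.KW.Final

/-!
# Local structure: all but few points have exactly six neighbours
-/

set_option autoImplicit false

open Real

namespace Pool.Agent.W2helper78.KW

noncomputable section

open Pool.Agent.W2helper54.KW

open Classical in
/-- the points at distance at most `11/10` -/
def nbr (P : Finset ℂ) (x : ℂ) : Finset ℂ := P.filter fun y => y ≠ x ∧ ‖y - x‖ ≤ 11 / 10

theorem six {P : Finset ℂ} {x : ℂ} (hP : Sep P) (hx : x ∈ P) (hD : D P x ≤ 1 / 10) :
    (nbr P x).card = 6 ∧ ∑ y ∈ nbr P x, (‖y - x‖ - 1) ≤ D P x := by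
  classical
  have hp := pi_pos
  have hp3 := pi_gt_three
  have hp4 := pi_lt_d2
  have hd : ∀ y ∈ P.erase x, 1 ≤ ‖y - x‖ := by
    intro y hy
    rw [Finset.mem_erase] at hy
    exact hP y hy.2 x hx hy.1
  set m : ℂ → ℝ := fun y => min (th x y) (π / 3 - th x y) with hm
  have hm0 : ∀ y ∈ P.erase x, 0 ≤ m y := by
    intro y hy
    exact le_min (th_nonneg x y) (by linarith [th_le (hd y hy)])
  have hsum : ∑ y ∈ P.erase x, th x y ≤ 2 * π := arcStm P x hP hx
  have hDdef : D P x = 2 * π - ∑ y ∈ P.erase x, th x y + ∑ y ∈ P.erase x, m y := rfl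
  have hmD : ∑ y ∈ P.erase x, m y ≤ D P x := by rw [hDdef]; linarith
  have hm1 : ∀ y ∈ P.erase x, m y ≤ D P x := fun y hy =>
    (Finset.single_le_sum hm0 hy).trans hmD
  set B := (P.erase x).filter fun y => π / 6 ≤ th x y with hB
  have hBig : ∀ y ∈ B, m y = π / 3 - th x y := by
    intro y hy
    rw [hB, Finset.mem_filter] at hy
    exact min_eq_right (by linarith [hy.2])
  have hSmall : ∀ y ∈ (P.erase x).filter (fun y => ¬ π / 6 ≤ th x y), m y = th x y := by
    intro y hy
    rw [Finset.mem_filter, not_le] at hy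
    exact min_eq_left (by linarith [hy.2])
  have hnb : nbr P x = B := by
    ext y
    unfold nbr
    rw [hB, Finset.mem_filter, Finset.mem_filter, Finset.mem_erase]
    constructor
    · rintro ⟨h1, h2, h3⟩
      refine ⟨⟨h2, h1⟩, ?_⟩
      by_contra hc
      rw [not_le] at hc
      have hy : y ∈ P.erase x := Finset.mem_erase.2 ⟨h2, h1⟩
      have h4 : m y = th x y := min_eq_left (by linarith)
      have h5 : th x y ≤ 1 / 10 := by rw [← h4]; exact (hm1 y hy).trans hD
      have h6 : 1 - 1 / 800 ≤ √3 / 2 * ‖y - x‖ := by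
        rcases (th_nonneg x y).lt_or_eq with h7 | h7
        · rw [norm_of_th h7]
          have h8 := Real.one_sub_sq_div_two_le_cos (x := th x y / 2)
          have h9 : (th x y / 2) ^ 2 ≤ (1 / 20) ^ 2 := by
            apply pow_le_pow_left₀ (by linarith); linarith
          linarith
        · unfold th at h7
          have h8 : arccos (√3 / 2 * ‖y - x‖) = 0 := by linarith
          rw [arccos_eq_zero] at h8
          linarith
      have h10 : √3 < 1.74 := by rw [Real.sqrt_lt' (by norm_num)]; norm_num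
      have h11 : √3 / 2 * ‖y - x‖ ≤ 1.74 / 2 * (11 / 10) := by
        apply mul_le_mul (by linarith) h3 (norm_nonneg _) (by norm_num)
      norm_num at h11 h6
      linarith
    · rintro ⟨⟨h1, h2⟩, h3⟩
      have hy : y ∈ P.erase x := Finset.mem_erase.2 ⟨h1, h2⟩
      have hyB : y ∈ B := by rw [hB, Finset.mem_filter]; exact ⟨hy, h3⟩
      have h4 := hm1 y hy
      rw [hBig y hyB] at h4
      refine ⟨h2, h1, ?_⟩
      have := norm_le_of_th (hd y hy) (by linarith) (h4.trans hD)
      linarith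
  have hsplit : ∑ y ∈ P.erase x, th x y = ∑ y ∈ B, th x y +
      ∑ y ∈ (P.erase x).filter (fun y => ¬ π / 6 ≤ th x y), th x y :=
    (Finset.sum_filter_add_sum_filter_not _ _ _).symm
  have hsplit2 : ∑ y ∈ P.erase x, m y = ∑ y ∈ B, m y +
      ∑ y ∈ (P.erase x).filter (fun y => ¬ π / 6 ≤ th x y), m y :=
    (Finset.sum_filter_add_sum_filter_not _ _ _).symm
  rw [Finset.sum_congr rfl hSmall] at hsplit2
  have hBm : 0 ≤ ∑ y ∈ B, m y := Finset.sum_nonneg fun y hy => by
    rw [hB, Finset.mem_filter] at hy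
    exact hm0 y hy.1
  have hBth : 2 * π - 1 / 10 ≤ ∑ y ∈ B, th x y := by linarith
  have hBth2 : ∑ y ∈ B, th x y ≤ 2 * π := by
    have : 0 ≤ ∑ y ∈ (P.erase x).filter (fun y => ¬ π / 6 ≤ th x y), th x y :=
      Finset.sum_nonneg fun y _ => th_nonneg x y
    linarith
  have hcard1 : ∑ y ∈ B, th x y ≤ B.card * (π / 3) := by
    rw [← nsmul_eq_mul]
    apply Finset.sum_le_card_nsmul
    intro y hy
    rw [hB, Finset.mem_filter] at hy
    exact th_le (hd y hy.1)
  have hcard2 : B.card * (π / 3 - 1 / 10) ≤ ∑ y ∈ B, th x y := by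
    rw [← nsmul_eq_mul]
    apply Finset.card_nsmul_le_sum
    intro y hy
    have h4 : m y ≤ D P x := by
      rw [hB, Finset.mem_filter] at hy
      exact hm1 y hy.1
    rw [hBig y hy] at h4
    linarith
  rw [hnb]
  constructor
  · have c1 : (5 : ℝ) < B.card := by
      by_contra hc
      rw [not_lt] at hc
      nlinarith
    have c2 : (B.card : ℝ) < 7 := by
      by_contra hc
      rw [not_lt] at hc
      nlinarith
    have c3 : 5 < B.card := by exact_mod_cast c1
    have c4 : B.card < 7 := by exact_mod_cast c2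
    omega
  · have h7 : ∀ y ∈ B, ‖y - x‖ - 1 ≤ m y := by
      intro y hy
      have hy' := hy
      rw [hB, Finset.mem_filter] at hy'
      rw [hBig y hy]
      have := norm_le_of_th (τ := π / 3 - th x y) (hd y hy'.1) (by linarith [hy'.2]) le_rfl
      linarith
    refine (Finset.sum_le_sum h7).trans ?_
    have : 0 ≤ ∑ y ∈ (P.erase x).filter (fun y => ¬ π / 6 ≤ th x y), th x y :=
      Finset.sum_nonneg fun y _ => th_nonneg x y
    linarith

/-- The structure theorem at diameter one. -/
theorem structure1 (P : Finset ℂ) (L : ℝ) (hL : 0 ≤ L) (hP : Sep P) (hB : ∀ x ∈ P, x ∈ box L) :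
    √3 / 2 * P.card ≤ (L + 2) ^ 2 ∧
    ∃ B ⊆ P, (B.card : ℝ) ≤ 500 * ((L + 2) ^ 2 - √3 / 2 * P.card) ∧
      (∀ x ∈ P, x ∉ B → (nbr P x).card = 6) ∧
      ∑ x ∈ P \ B, ∑ y ∈ nbr P x, (‖y - x‖ - 1) ≤ 50 * ((L + 2) ^ 2 - √3 / 2 * P.card) := by
  classical
  have hS := sumStm P L hL hP hB
  have hD0 : ∀ x ∈ P, 0 ≤ D P x := fun x hx => (areaStm P x hP hx).1
  have h0 : 0 ≤ ∑ x ∈ P, D P x := Finset.sum_nonneg hD0
  refine ⟨by linarith, P.filter (fun x => 1 / 10 < D P x), Finset.filter_subset _ _, ?_, ?_, ?_⟩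
  · have h1 : ((P.filter (fun x => 1 / 10 < D P x)).card : ℝ) * (1 / 10) ≤ ∑ x ∈ P, D P x := by
      rw [← nsmul_eq_mul]
      refine (Finset.card_nsmul_le_sum _ (fun x => D P x) _ ?_).trans ?_
      · intro x hx
        rw [Finset.mem_filter] at hx
        exact hx.2.le
      · exact Finset.sum_le_sum_of_subset_of_nonneg (Finset.filter_subset _ _)
          (fun x hx _ => hD0 x hx)
    linarith
  · intro x hx hxB
    rw [Finset.mem_filter, not_and, not_lt] at hxB
    exact (six hP hx (hxB hx)).1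
  · refine (Finset.sum_le_sum (f := fun x => ∑ y ∈ nbr P x, (‖y - x‖ - 1)) (g := fun x => D P x)
      ?_).trans ?_
    · intro x hx
      rw [Finset.mem_sdiff, Finset.mem_filter, not_and, not_lt] at hx
      exact (six hP hx.1 (hx.2 hx.1)).2
    · refine (Finset.sum_le_sum_of_subset_of_nonneg Finset.sdiff_subset
        (fun x hx _ => hD0 x hx)).trans hS

end

end Pool.Agent.W2helper78.KW
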