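import Mathlib

/-!
# Hard disks near close packing (MP_09cbbd_mp): statements

Goal: for hard disks of radius `a` in the plane the limiting free energy per particle is
`log ρ - 2 log (1 - ρ / ρ₀) + O(1)`, uniformly for all densities `0 < ρ < ρ₀ = 1 / (2 √3 a²)`
(upper bound of the partition function: Thue's theorem with stability + an entropy count).

Throughout the diameter is one (`2 a = 1`), points of the plane are complex numbers.
-/

set_option autoImplicit false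

open MeasureTheory Real

namespace Pool.Agent.W2helper78.KW

noncomputable section

/-- pairwise distances at least one -/
def Sep (P : Finset ℂ) : Prop := ∀ x ∈ P, ∀ y ∈ P, x ≠ y → 1 ≤ ‖x - y‖

/-- the box -/
def box (L : ℝ) : Set ℂ := {z | z.re ∈ Set.Icc 0 L ∧ z.im ∈ Set.Icc 0 L}

/-- Angular width of the arc of the circle of radius `1/√3` around `x` which is closer to `y` than to
`x`. It is `π/3` if `‖y - x‖ = 1` and `0` if `‖y - x‖ ≥ 2/√3` (Mathlib: `arccos t = 0` for `t ≥ 1`). -/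
def th (x y : ℂ) : ℝ := 2 * arccos (√3 / 2 * ‖y - x‖)

/-- The defect of the point `x` of the packing `P`. -/
def D (P : Finset ℂ) (x : ℂ) : ℝ :=
  2 * π - ∑ y ∈ P.erase x, th x y + ∑ y ∈ P.erase x, min (th x y) (π / 3 - th x y)

/-- The open Voronoi cell cut off at the radius `1/√3`. -/
def cell (P : Finset ℂ) (x : ℂ) : Set ℂ :=
  {p | ‖p - x‖ < 1 / √3 ∧ ∀ y ∈ P, y ≠ x → ‖p - x‖ < ‖p - y‖}

/-- **KW-1 (area of a cap).** Proof: the Euclidean motion `p ↦ (p - x) * conj u`,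
`u = (y - x)/‖y - x‖`, preserves volume and maps the set to `{p | ‖p‖ < R, d ≤ p.re}` with
`R = 1/√3`, `d = ‖y - x‖/2`. If `d ≥ R` it is empty (and `th = 0`). Otherwise its area is
`∫_d^R 2 √(R² - t²) dt` (`volume_regionBetween_eq_integral`, `Complex.volume_preserving_equiv_real_prod`)
and an antiderivative of `2 √(R² - t²)` is `t √(R² - t²) + R² arcsin (t/R)`
(`intervalIntegral.integral_eq_sub_of_hasDerivAt_of_le`), so that the area is
`R² arccos (d/R) - d √(R² - d²) = (R²/2) (θ - sin θ)`, `θ = 2 arccos (d/R) = th x y`, `R² = 1/3`. -/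
def CapStm : Prop := ∀ x y : ℂ, 1 ≤ ‖y - x‖ →
  volume.real {p : ℂ | ‖p - x‖ < 1 / √3 ∧ ‖p - y‖ ≤ ‖p - x‖} ≤ (th x y - sin (th x y)) / 6

/-- **KW-2a (the arcs are disjoint).** Proof: for `y ∈ P`, `y ≠ x`, `‖y - x‖ < 2/√3` put
`A_y = {φ ∈ (-π, π) | cos (φ - arg (y - x)) > √3/2 * ‖y - x‖}` (equivalently: the point
`p = x + R e^{iφ}`, `R = 1/√3`, satisfies `‖p - y‖ < ‖p - x‖ = R`). By periodicity
(`Function.Periodic.intervalIntegral_add_eq` for the indicator) its measure is `th x y`.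
The sets `A_y` are pairwise disjoint: if `φ ∈ A_y ∩ A_{y'}`, then for `p` as above the vectors
`u = x - p`, `v = y - p`, `w = y' - p` have norms `= R`, `< R`, `< R`, but
`‖u-v‖² + ‖v-w‖² + ‖w-u‖² = 3(‖u‖²+‖v‖²+‖w‖²) - ‖u+v+w‖² < 9 R² = 3`, while all three distances are
at least one. So `∑ th x y = ∫_{-π}^{π} ∑ 1_{A_y} ≤ 2π`. -/
def ArcStm : Prop := ∀ (P : Finset ℂ) (x : ℂ), Sep P → x ∈ P → ∑ y ∈ P.erase x, th x y ≤ 2 * π

/-- **KW-2b (two lower neighbours).** Notation of KW-2a. Every `th x y ≤ π/3`. Call `y` big if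
`th x y ≥ π/6`; for big `y` the minimum in `D` is `π/3 - th x y` and for the other ones it is `th x y`; all
minima are `≥ 0`. So (i) for big `y`: `π/3 - th x y ≤ D`, and
`‖y - x‖ = (2/√3) cos (th/2) ≤ 1 + (π/3 - th)` (put `th = π/3 - τ`:
`(2/√3) cos (π/6 - τ/2) ≤ (2/√3)(√3/2 + (1/2)(τ/2)) ≤ 1 + τ`);
(ii) `2π - ∑_{big} th x y = (2π - ∑ th) + ∑_{not big} th ≤ D ≤ 1/10`.
Let `H = (-11π/12, -π/12)` (length `5π/6`). If `arg (y - x) ∉ H` then
`A_y ∩ H ⊆ E := (-11π/12, -9π/12) ∪ (-3π/12, -π/12)` (measure `π/3`) because `A_y` is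
within `π/6` of `arg (y - x)` modulo `2π`. Since the `A_y` are disjoint,
`∫_H (1 - ∑_{big} 1_{A_y}) ≤ ∫_{-π}^{π} (1 - ∑_{big} 1_{A_y}) = 2π - ∑_{big} th ≤ 1/10`, and
`∫_H ∑_{big} 1_{A_y} ≤ k π/3 + π/3` where `k` is the number of big `y` with `arg (y - x) ∈ H`. So
`5π/6 - π/3 - k π/3 ≤ 1/10`, hence `k ≥ 2`. Take two such `y ≠ y'`: they are lower than `x` (`sin < 0` on
`H`); with `a = ‖y - x‖, b = ‖y' - x‖ ∈ [1, 11/10]` and the angle `ψ` between them:
`cos ψ = (a² + b² - ‖y-y'‖²)/(2ab) ≤ (a²+b²-1)/(2ab) ≤ √3/2`, and `|arg - arg'| < 5π/6` gives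
`cos ψ ≥ -√3/2`; so `|sin ψ| ≥ 1/2` and the determinant is at least `1/2`. -/
def LowStm : Prop := ∀ (P : Finset ℂ) (x : ℂ), Sep P → x ∈ P → D P x ≤ 1 / 10 →
  ∃ y ∈ P, ∃ y' ∈ P, y ≠ x ∧ y' ≠ x ∧ y.im < x.im ∧ y'.im < x.im ∧
    ‖y - x‖ ≤ 1 + D P x ∧ ‖y' - x‖ ≤ 1 + D P x ∧
    1 / 2 ≤ |(y - x).re * (y' - x).im - (y - x).im * (y' - x).re|

/-- **KW-3a (area of the cell with defect), given KW-1, KW-2a.** Proof: all terms of `D` are `≥ 0`
(`0 ≤ th x y ≤ π/3` for `y ≠ x`). The cell is the ball of radius `R = 1/√3` without the caps, so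
`vol ≥ π/3 - ∑ (th - sin th)/6 = (1/6) (2π - ∑ th + ∑ sin th)`. With `k = 3√3/(2π) ≤ 0.83` and
`sin t ≥ k t + (3/π)(1 - √3/2) min t (π/3 - t)` on `[0, π/3]` (concavity of `sin`: chords through
`0, π/6, π/3`), `(3/π)(1 - √3/2) ≥ 0.12`: `vol ≥ (1/6)(2πk + (1 - k)(2π - ∑ th) + 0.12 ∑ min) ≥
√3/2 + D/50`. -/
def AreaStm : Prop := ∀ (P : Finset ℂ) (x : ℂ), Sep P → x ∈ P →
  0 ≤ D P x ∧ √3 / 2 + D P x / 50 ≤ volume.real (cell P x)

/-- **KW-3b, given KW-3a.** The cells of the points of `P` are disjoint, measurable (open) and contained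
in `[-1, L+1]²`. -/
def SumStm : Prop := ∀ (P : Finset ℂ) (L : ℝ), 0 ≤ L → Sep P → (∀ x ∈ P, x ∈ box L) →
  ∑ x ∈ P, D P x ≤ 50 * ((L + 2) ^ 2 - √3 / 2 * P.card)

/-- **KW-4a (local rigidity).** Proof: `w = x' - x`. `|‖x' - y‖ - ‖x - y‖| ≤ 3h`, so
`|2⟨x - y, w⟩ + ‖w‖²| ≤ 3h (‖x'-y‖ + ‖x-y‖) ≤ 7h`, the same for `z`. By Cramer's rule
`‖w‖ · |det| ≤ (‖x-y‖ + ‖x-z‖) max |⟨·, w⟩| ≤ 2.2 (7h + ‖w‖²)/2`, so `‖w‖ ≤ 15.4 h + 2.2 ‖w‖²
≤ 15.4 h + 0.044 ‖w‖`. -/
def LocStm : Prop := ∀ (x y z x' y' z' : ℂ) (h : ℝ), 0 < h → h ≤ 1 / 1000 →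
  ‖y - y'‖ ≤ 2 * h → ‖z - z'‖ ≤ 2 * h → |‖x - y‖ - ‖x' - y'‖| ≤ h → |‖x - z‖ - ‖x' - z'‖| ≤ h →
  ‖x - x'‖ ≤ 1 / 50 → ‖x - y‖ ≤ 11 / 10 → ‖x - z‖ ≤ 11 / 10 →
  1 / 2 ≤ |(y - x).re * (z - x).im - (y - x).im * (z - x).re| → ‖x - x'‖ ≤ 17 * h

/-- the grid cell of a point -/
def dsc (h : ℝ) (z : ℂ) : ℤ × ℤ := (⌊z.re / h⌋, ⌊z.im / h⌋)

/-- the discretized packings with total defect at most `T` -/
def SS (h L T : ℝ) : Set (Finset (ℤ × ℤ)) :=
  {S | ∃ P : Finset ℂ, Sep P ∧ (∀ x ∈ P, x ∈ box L) ∧ ∑ x ∈ P, D P x ≤ T ∧ S = P.image (dsc h)}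

/-- **KW-4b (entropy count), given KW-2b, KW-4a and `D ≥ 0`.** Proof. For `S` choose `P = P_S`. Coarse cells:
squares of side `1/100`, `Q(x) = (⌊100 x.re⌋, ⌊100 x.im⌋)`, at most `(100 L + 1)²` of them; each contains at
most one point of `P` (diameter `< 1/50 < 1`). The code of `S` is the function on the coarse cells with values:
`empty` if there is no point of `P` in it; if there is the point `x`: *bad* (if `D x > 1/10`) together with the
grid cell `dsc h x` relative to the corner of the coarse cell (at most `(1/(100h) + 2)² ≤ h⁻²` values);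
*good* (if `D x ≤ 1/10`) together with: `Q(y) - Q(x)`, `Q(y') - Q(x)` for the two lower neighbours of KW-2b
(in a window `[-120,120]²`), `m = ⌊(‖y-x‖ - 1)/h⌋`, `n = ⌊(‖y'-x‖ - 1)/h⌋`, and `dsc h x` modulo `40`
(componentwise). *Injectivity*: if `S, S'` have the same code, then for all coarse cells `Q` (nonempty) the
points `x ∈ P_S`, `x' ∈ P_S'` in `Q` have `dsc h x = dsc h x'`: induction on the height `x.im` in the finite
set `P_S`: bad: clear; good: by induction the lower neighbours have the same `dsc`, so are at distance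
`≤ √2 h ≤ 2h`, the distances differ by at most `h` (same `m, n`), `‖x - x'‖ ≤ 1/50` (same coarse cell);
KW-4a gives `‖x - x'‖ ≤ 17h`, so `dsc h x, dsc h x'` differ by at most `18` in each coordinate and they agree
mod `40`. Hence `S = S'`. *Number of codes*: (number of bad cells) `≤ 10 T`, `∑ (m + n) ≤ 2T/h`. Give a code the
weight `∏` over the cells: `1` (empty), `h²` (bad), `2^{-m-n}` (good). Each code has weight
`≥ h^{20 T} 2^{-2T/h}` and the sum of the weights of all codes is at most `C₁^{(100L+1)²}`. So the number of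
codes is at most `C₁^{(100L+1)²} 2^{2T/h} (1/h)^{20T}`, and `log (1/h) ≤ 1/h`. -/
def CountStm : Prop := ∃ C : ℝ, 0 < C ∧ ∀ h L T : ℝ, 0 < h → h ≤ 1 / 1000 → 1 ≤ L → 0 ≤ T →
  (SS h L T).Finite ∧ ((SS h L T).ncard : ℝ) ≤ exp (C * (L ^ 2 + T / h))

/-- configurations of `N` labelled points in the box of side `L` with distances at least one -/
def Conf (N : ℕ) (L : ℝ) : Set (Fin N → Fin 2 → ℝ) :=
  {x | (∀ i k, x i k ∈ Set.Icc (0 : ℝ) L) ∧
    ∀ i j, i ≠ j → (1 : ℝ) ≤ ∑ k, (x i k - x j k) ^ 2}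

/-- **KW-5 (discretization), given KW-3b.** Proof: `Conf N L` is covered by the cubes of side `h` (product of
`2N` intervals `[h z, h (z+1))`), indexed by the `z : Fin N → ℤ × ℤ` of the form `i ↦ dsc h (x i)`,
`x ∈ Conf N L`. For `h ≤ 1/1000` these `z` are injective and their images are the finsets `P.image (dsc h)`,
`P` the set of the points of `x` (card `N`, `Sep`), for which `∑ D ≤ T` by KW-3b; each finset of card `N` is the
image of `N!` injective maps. Each cube has volume `h^(2N)`. -/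
def DiscStm : Prop := ∀ (N : ℕ) (L h T : ℝ), 0 ≤ L → 0 < h → h ≤ 1 / 1000 →
  50 * ((L + 2) ^ 2 - √3 / 2 * N) ≤ T → (SS h L T).Finite →
  volume.real (Conf N L) ≤ N.factorial * (h ^ (2 * N) * (SS h L T).ncard)

/-- **KW-6 (lower bound).** Proof: the centres `p(i,j) = ((b-1)/4 + b i + (j mod 2) b/2, (b-1)/4 + j b √3/2)`,
`0 ≤ i < ⌊L/b⌋`, `0 ≤ j < ⌊2L/(√3 b)⌋` have mutual distances at least `b`; if `|x_i - p_i|_∞ ≤ (b-1)/4`
then the points `x_i` are in the box and have distances at least `b - 2 √2 (b-1)/4 ≥ 1`. For every injection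
of `Fin N` into a fixed set of `N` centres (there are `N!` of them) we get a cube of volume `((b-1)/2)^(2N)`;
these cubes are disjoint for different injections. -/
def LowerStm : Prop := ∀ (b L : ℝ) (N : ℕ), 1 < b → 0 ≤ L → N ≤ ⌊L / b⌋₊ * ⌊2 * L / (√3 * b)⌋₊ →
  N.factorial * ((b - 1) / 2) ^ (2 * N) ≤ volume.real (Conf N L)

end

end Pool.Agent.W2helper78.KW
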